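import Pool.Agent.MP_8311ed_lc.Main
import Pool.Agent.MP_8311ed_lc.ObfWE

set_option autoImplicit false
open Pool.Agent.MP_8311ed_lc

namespace Pool.Agent.Results.MP_8311ed_lc.OneBitLeakage

/-- Suppose that indistinguishability obfuscation or witness encryption for NP exists. Then there
is an adversarial verifier `A`, which sends no message and makes a single leakage query, such that
for every NP relation whose language is not in BPP, every interactive argument system for it with
leak-free input encoding, and every polynomial `p ≥ 1`, the adversary `A` cannot be simulated when
it is given `p` (so, one) bits of leakage; in particular the system is not `p`-leakage-resilient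
zero knowledge, even with non-black-box simulation. -/
theorem result (h : IndistinguishabilityObfuscation ∨ WitnessEncryption) :
    ∃ A : Adversary, A.steps = 1 ∧ (∀ l : List Str, (A.act l).head? = some true) ∧
      ∀ R : Str → Str → Prop, IsNPRelation R → ¬ InBPP (lang R) →
        ∀ S : Protocol, S.IsArgument R → ∀ p : Polynomial ℕ, (∀ n : ℕ, 1 ≤ p.eval n) →
          ¬ S.Simulatable R p A ∧ ¬ S.LRZK R p := by
  have hWE : WitnessEncryption := h.elim witnessEncryption_of_io id
  refine ⟨att, rfl, fun l => rfl, fun R _ hL S hS p hp => ?_⟩
  have h1 : ¬ S.Simulatable R p att := fun hZK => hL (main hWE S hS hp hZK)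
  exact ⟨h1, fun hZK => h1 (hZK att)⟩

end Pool.Agent.Results.MP_8311ed_lc.OneBitLeakage
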